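import Mathlib
import Pool.Agent.Helper22.MorDeform
import Pool.Agent.Helper22.MorBad

/-!
# A real singularity without a real morsification realizing the Milnor number

There is a real quartic form `f` in four variables, with an isolated complex critical point at the
origin, such that every real analytic deformation of `f` has, for all sufficiently small `t > 0`,
strictly fewer than `μ(f)` real critical points near the origin.
-/

set_option autoImplicit false

namespace Pool.Agent.Results.MP_2aa512_ag.NoMaxRealMorsification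

open MvPolynomial Filter Topology

noncomputable section

/-- `φ` converges absolutely on the polydisc of radius `r`. -/
def ConvOn {n : ℕ} (r : ℝ) (φ : MvPowerSeries (Fin n) ℂ) : Prop :=
  Summable fun α : Fin n →₀ ℕ => ‖MvPowerSeries.coeff α φ‖ * r ^ α.degree

lemma ConvOn.mono {n : ℕ} {r r' : ℝ} (hr' : 0 ≤ r') (h : r' ≤ r) {φ : MvPowerSeries (Fin n) ℂ}
    (hφ : ConvOn r φ) : ConvOn r' φ := by
  refine Summable.of_nonneg_of_le (fun α => by positivity) (fun α => ?_) hφ
  exact mul_le_mul_of_nonneg_left (pow_le_pow_left₀ hr' h _) (norm_nonneg _)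

lemma ConvOn.add {n : ℕ} {r : ℝ} (hr : 0 ≤ r) {φ ψ : MvPowerSeries (Fin n) ℂ}
    (hφ : ConvOn r φ) (hψ : ConvOn r ψ) : ConvOn r (φ + ψ) := by
  refine Summable.of_nonneg_of_le (fun α => by positivity) (fun α => ?_) (Summable.add hφ hψ)
  rw [map_add, ← add_mul]
  exact mul_le_mul_of_nonneg_right (norm_add_le _ _) (by positivity)

lemma ConvOn.mul {n : ℕ} {r : ℝ} (hr : 0 ≤ r) {φ ψ : MvPowerSeries (Fin n) ℂ}
    (hφ : ConvOn r φ) (hψ : ConvOn r ψ) : ConvOn r (φ * ψ) := by
  classical
  have h1 := summable_sum_mul_antidiagonal_of_summable_mul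
    (Summable.mul_of_nonneg hφ hψ (fun _ => by positivity) (fun _ => by positivity))
  refine Summable.of_nonneg_of_le (fun α => by positivity) (fun α => ?_) h1
  rw [MvPowerSeries.coeff_mul]
  calc ‖∑ p ∈ Finset.HasAntidiagonal.antidiagonal α, MvPowerSeries.coeff p.1 φ * MvPowerSeries.coeff p.2 ψ‖ *
        r ^ α.degree
      ≤ (∑ p ∈ Finset.HasAntidiagonal.antidiagonal α, ‖MvPowerSeries.coeff p.1 φ‖ *
        ‖MvPowerSeries.coeff p.2 ψ‖) * r ^ α.degree := by
        apply mul_le_mul_of_nonneg_right _ (by positivity)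
        refine (norm_sum_le _ _).trans (Finset.sum_le_sum fun p _ => ?_)
        rw [norm_mul]
    _ = _ := by
        rw [Finset.sum_mul]
        apply Finset.sum_congr rfl
        intro p hp
        rw [← Finset.HasAntidiagonal.mem_antidiagonal.mp hp, map_add, pow_add]
        ring

lemma ConvOn.coe {n : ℕ} (r : ℝ) (p : MvPolynomial (Fin n) ℂ) :
    ConvOn r (p : MvPowerSeries (Fin n) ℂ) := by
  apply summable_of_ne_finset_zero (s := p.support)
  intro α hα
  rw [MvPolynomial.coeff_coe, MvPolynomial.notMem_support_iff.mp hα]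
  simp

/-- The ring `ℂ{x₁, …, xₙ}` of convergent power series in `n` variables: the formal power series
that converge absolutely on some polydisc around `0`. -/
def ConvSeries (n : ℕ) : Subalgebra ℂ (MvPowerSeries (Fin n) ℂ) where
  carrier := {φ | ∃ r : ℝ, 0 < r ∧ ConvOn r φ}
  mul_mem' := by
    rintro φ ψ ⟨r, hr, h⟩ ⟨r', hr', h'⟩
    refine ⟨min r r', by positivity, ConvOn.mul (by positivity) ?_ ?_⟩
    · exact h.mono (by positivity) (min_le_left _ _)
    · exact h'.mono (by positivity) (min_le_right _ _)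
  add_mem' := by
    rintro φ ψ ⟨r, hr, h⟩ ⟨r', hr', h'⟩
    refine ⟨min r r', by positivity, ConvOn.add (by positivity) ?_ ?_⟩
    · exact h.mono (by positivity) (min_le_left _ _)
    · exact h'.mono (by positivity) (min_le_right _ _)
  algebraMap_mem' := by
    intro c
    refine ⟨1, zero_lt_one, ?_⟩
    have h : (algebraMap ℂ (MvPowerSeries (Fin n) ℂ) c) =
        ((C c : MvPolynomial (Fin n) ℂ) : MvPowerSeries (Fin n) ℂ) := by
      rw [MvPolynomial.coe_C]
      rfl
    rw [h]
    exact ConvOn.coe 1 _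

/-- A polynomial with complex coefficients, as a convergent power series. -/
def toConv {n : ℕ} (p : MvPolynomial (Fin n) ℂ) : ConvSeries n :=
  ⟨(p : MvPowerSeries (Fin n) ℂ), 1, zero_lt_one, ConvOn.coe 1 p⟩

/-- The complexification of a real polynomial. -/
def complexify {n : ℕ} (f : MvPolynomial (Fin n) ℝ) : MvPolynomial (Fin n) ℂ :=
  map (algebraMap ℝ ℂ) f

/-- The ideal of `ℂ{x₁, …, xₙ}` generated by the partial derivatives of `f`. -/
def jacobianIdeal {n : ℕ} (f : MvPolynomial (Fin n) ℝ) : Ideal (ConvSeries n) :=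
  Ideal.span (Set.range fun i => toConv (pderiv i (complexify f)))

/-- The Milnor algebra `ℂ{x₁, …, xₙ}/(∂f/∂x₁, …, ∂f/∂xₙ)` of `f` at the origin. -/
abbrev MilnorAlgebra {n : ℕ} (f : MvPolynomial (Fin n) ℝ) : Type :=
  ConvSeries n ⧸ jacobianIdeal f

/-- The Milnor number of `f` at the origin: the complex dimension of the Milnor algebra. -/
def milnorNumber {n : ℕ} (f : MvPolynomial (Fin n) ℝ) : ℕ :=
  Module.finrank ℂ (MilnorAlgebra f)

/-- The inclusion of `ℝⁿ` in `ℂⁿ`. -/
def toC {n : ℕ} (x : Fin n → ℝ) : Fin n → ℂ := fun i => (x i : ℂ)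

/-- `F t`, for `t > 0` small, is a real analytic deformation of `f` on the neighbourhood `U` of
`0` in `ℂⁿ`: each `F t` is (the complexification of) a real analytic function, that is, a
complex analytic function on `U` which is real at the real points of `U`, and `F t` converges to
`f` as `t → 0+`, uniformly on the compact subsets of `U`. -/
structure IsRealDeformation {n : ℕ} (f : MvPolynomial (Fin n) ℝ) (U : Set (Fin n → ℂ))
    (F : ℝ → (Fin n → ℂ) → ℂ) : Prop where
  isOpen : IsOpen U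
  zero_mem : 0 ∈ U
  analytic : ∀ᶠ t in 𝓝[>] (0 : ℝ), AnalyticOnNhd ℂ (F t) U
  real : ∀ᶠ t in 𝓝[>] (0 : ℝ), ∀ x : Fin n → ℝ, toC x ∈ U → (F t (toC x)).im = 0
  tendsto : TendstoLocallyUniformlyOn F (fun z => eval z (complexify f)) (𝓝[>] (0 : ℝ)) U

/-- The set of real critical points in `K` of the real function `x ↦ G x` on `ℝⁿ`. -/
def realCrit {n : ℕ} (G : (Fin n → ℂ) → ℂ) (K : Set (Fin n → ℝ)) : Set (Fin n → ℝ) :=
  {x ∈ K | fderiv ℝ (fun y : Fin n → ℝ => (G (toC y)).re) x = 0}

/-! ### The Milnor algebra is finite dimensional -/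

open Helper22.Mor

/-- `toConv` as an algebra homomorphism -/
def toConvHom : MvPolynomial (Fin 4) ℂ →ₐ[ℂ] ConvSeries 4 where
  toFun := toConv
  map_one' := Subtype.ext MvPolynomial.coe_one
  map_mul' a b := Subtype.ext (MvPolynomial.coe_mul a b)
  map_zero' := Subtype.ext MvPolynomial.coe_zero
  map_add' a b := Subtype.ext (MvPolynomial.coe_add a b)
  commutes' c := by
    apply Subtype.ext
    change (((C c : MvPolynomial (Fin 4) ℂ)) : MvPowerSeries (Fin 4) ℂ) = _
    rw [MvPolynomial.coe_C]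
    rfl

lemma toConvHom_apply (a : MvPolynomial (Fin 4) ℂ) : toConvHom a = toConv a := rfl

lemma pderiv_complexify (f : MvPolynomial (Fin 4) ℝ) (i : Fin 4) :
    pderiv i (complexify f) = cx (pderiv i f) := pderiv_map

lemma mem_jac_of_mem (f : MvPolynomial (Fin 4) ℝ) (a : MvPolynomial (Fin 4) ℂ)
    (ha : a ∈ jI fun l => cx (pderiv l f)) : toConv a ∈ jacobianIdeal f := by
  obtain ⟨b, hb⟩ := (mem_jI_iff _ a).mp ha
  rw [← toConvHom_apply, hb, map_sum]
  apply Ideal.sum_mem
  intro l _
  rw [map_mul]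
  apply Ideal.mul_mem_left
  apply Ideal.subset_span
  exact ⟨l, by simp only [pderiv_complexify]; rfl⟩

lemma mem_of_mem_jac (f : MvPolynomial (Fin 4) ℝ)
    (hns : ∀ z : Fin 4 → ℂ, (∀ l, eval z (cx (pderiv l f)) = 0) → z = 0)
    (a : MvPolynomial (Fin 4) ℂ) (ha : toConv a ∈ jacobianIdeal f) :
    a ∈ jI fun l => cx (pderiv l f) := by
  classical
  obtain ⟨M, hM⟩ := exists_deg _ hns
  unfold jacobianIdeal at ha
  rw [Ideal.mem_span_range_iff_exists_fun] at ha
  obtain ⟨b, hb⟩ := ha
  -- equation in the ring of formal power series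
  have hb' : ∑ l, (b l : MvPowerSeries (Fin 4) ℂ) *
      ((cx (pderiv l f) : MvPolynomial (Fin 4) ℂ) : MvPowerSeries (Fin 4) ℂ) =
      (a : MvPowerSeries (Fin 4) ℂ) := by
    have h1 := congrArg (fun x : ConvSeries 4 => (x : MvPowerSeries (Fin 4) ℂ)) hb
    simp only [pderiv_complexify] at h1
    rw [AddSubmonoidClass.coe_finsetSum] at h1
    exact h1
  set S : Finset (Fin 4 →₀ ℕ) := (Finsupp.finite_of_degree_lt (σ := Fin 4) M).toFinset with hS
  set β : Fin 4 → MvPolynomial (Fin 4) ℂ := fun l =>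
    ∑ α ∈ S, monomial α (MvPowerSeries.coeff α (b l : MvPowerSeries (Fin 4) ℂ)) with hβ
  have hβc : ∀ l (α : Fin 4 →₀ ℕ), α.degree < M →
      coeff α (β l) = MvPowerSeries.coeff α (b l : MvPowerSeries (Fin 4) ℂ) := by
    intro l α hα
    rw [hβ]
    simp only [coeff_sum, coeff_monomial]
    rw [Finset.sum_ite_eq']
    rw [if_pos]
    rw [hS, Set.Finite.mem_toFinset]
    exact hα
  set e : MvPolynomial (Fin 4) ℂ := a - ∑ l, β l * cx (pderiv l f) with he
  have hec : ∀ α : Fin 4 →₀ ℕ, α.degree < M → coeff α e = 0 := by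
    intro α hα
    rw [he, coeff_sub, coeff_sum, ← MvPolynomial.coeff_coe a, ← hb', map_sum,
      ← Finset.sum_sub_distrib]
    apply Finset.sum_eq_zero
    intro l _
    rw [MvPowerSeries.coeff_mul, MvPolynomial.coeff_mul, ← Finset.sum_sub_distrib]
    apply Finset.sum_eq_zero
    intro p hp
    rw [MvPolynomial.coeff_coe, hβc]
    · ring
    · have h1 : p.1 ≤ α := by
        rw [← Finset.HasAntidiagonal.mem_antidiagonal.mp hp]
        exact le_self_add
      exact (Finsupp.degree_mono h1).trans_lt hα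
  have heI : e ∈ jI fun l => cx (pderiv l f) := by
    rw [e.as_sum]
    apply Ideal.sum_mem
    intro α hα
    have h1 : M ≤ α.degree := by
      by_contra hcon
      push Not at hcon
      exact MvPolynomial.mem_support_iff.mp hα (hec α hcon)
    have h2 : monomial α (coeff α e) = C (coeff α e) * monomial α 1 := by
      rw [C_mul_monomial, mul_one]
    rw [h2]
    exact Ideal.mul_mem_left _ _ (hM α h1)
  have h3 : a = e + ∑ l, β l * cx (pderiv l f) := by rw [he]; ring
  rw [h3]
  apply Ideal.add_mem _ heI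
  rw [mem_jI_iff]
  exact ⟨β, rfl⟩

/-- convergent power series of large order lie in the Jacobian ideal -/
lemma mem_jac_of_order (f : MvPolynomial (Fin 4) ℝ) (M : ℕ)
    (hM : ∀ α : Fin 4 →₀ ℕ, M ≤ α.degree → monomial α (1 : ℂ) ∈ jI fun l => cx (pderiv l f))
    (ψ : ConvSeries 4)
    (hψ : ∀ α : Fin 4 →₀ ℕ, α.degree < M →
      MvPowerSeries.coeff α (ψ : MvPowerSeries (Fin 4) ℂ) = 0) : ψ ∈ jacobianIdeal f := by
  classical
  obtain ⟨r, hr, hconv⟩ := ψ.2
  set G : Finset (Fin 4 →₀ ℕ) := (Finsupp.finite_of_degree_eq (σ := Fin 4) M).toFinset with hG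
  have hGm : ∀ γ, γ ∈ G ↔ γ.degree = M := by
    intro γ
    rw [hG, Set.Finite.mem_toFinset]
    rfl
  choose! g hg using fun (α : Fin 4 →₀ ℕ) (h : M ≤ α.degree) => Finsupp.exists_le_degree_eq α M h
  -- the quotients
  set q : (Fin 4 →₀ ℕ) → MvPowerSeries (Fin 4) ℂ := fun γ β =>
    if g (β + γ) = γ then MvPowerSeries.coeff (β + γ) (ψ : MvPowerSeries (Fin 4) ℂ) else 0 with hq
  have hqc : ∀ γ β, MvPowerSeries.coeff β (q γ) =
      if g (β + γ) = γ then MvPowerSeries.coeff (β + γ) (ψ : MvPowerSeries (Fin 4) ℂ) else 0 :=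
    fun γ β => rfl
  have hqconv : ∀ γ, ConvOn r (q γ) := by
    intro γ
    have h1 : Summable fun β : Fin 4 →₀ ℕ =>
        ‖MvPowerSeries.coeff (β + γ) (ψ : MvPowerSeries (Fin 4) ℂ)‖ * r ^ (β + γ).degree :=
      hconv.comp_injective (add_left_injective γ)
    have h2 := h1.mul_right ((r ^ γ.degree)⁻¹)
    refine Summable.of_nonneg_of_le (fun β => by positivity) (fun β => ?_) h2
    rw [hqc, map_add, pow_add]
    have h3 : ‖MvPowerSeries.coeff (β + γ) (ψ : MvPowerSeries (Fin 4) ℂ)‖ *
        (r ^ β.degree * r ^ γ.degree) * (r ^ γ.degree)⁻¹ =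
        ‖MvPowerSeries.coeff (β + γ) (ψ : MvPowerSeries (Fin 4) ℂ)‖ * r ^ β.degree := by
      field_simp
    rw [h3]
    apply mul_le_mul_of_nonneg_right _ (by positivity)
    split_ifs
    · exact le_rfl
    · rw [norm_zero]; exact norm_nonneg _
  set Q : (Fin 4 →₀ ℕ) → ConvSeries 4 := fun γ => ⟨q γ, r, hr, hqconv γ⟩ with hQ
  have hsum : ψ = ∑ γ ∈ G, Q γ * toConv (monomial γ 1) := by
    apply Subtype.ext
    rw [AddSubmonoidClass.coe_finsetSum]
    ext α
    rw [map_sum]
    have h1 : ∀ γ ∈ G, MvPowerSeries.coeff α ((Q γ * toConv (monomial γ 1) : ConvSeries 4) :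
        MvPowerSeries (Fin 4) ℂ) = if γ ≤ α ∧ g α = γ then
          MvPowerSeries.coeff α (ψ : MvPowerSeries (Fin 4) ℂ) else 0 := by
      intro γ _
      have h2 : ((Q γ * toConv (monomial γ 1) : ConvSeries 4) : MvPowerSeries (Fin 4) ℂ) =
          q γ * MvPowerSeries.monomial γ 1 := by
        change q γ * ((monomial γ (1 : ℂ) : MvPolynomial (Fin 4) ℂ) : MvPowerSeries (Fin 4) ℂ) = _
        rw [MvPolynomial.coe_monomial]
      rw [h2, MvPowerSeries.coeff_mul_monomial]
      by_cases h3 : γ ≤ α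
      · rw [if_pos h3, hqc, tsub_add_cancel_of_le h3, mul_one]
        by_cases h4 : g α = γ
        · rw [if_pos h4, if_pos ⟨h3, h4⟩]
        · rw [if_neg h4, if_neg (fun h => h4 h.2)]
      · rw [if_neg h3, if_neg (fun h => h3 h.1)]
    rw [Finset.sum_congr rfl h1]
    by_cases hα : M ≤ α.degree
    · rw [Finset.sum_eq_single (g α)]
      · rw [if_pos ⟨(hg α hα).1, rfl⟩]
      · intro γ _ hγ
        rw [if_neg (fun h => hγ h.2.symm)]
      · intro h
        exact absurd ((hGm _).mpr (hg α hα).2) h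
    · push Not at hα
      rw [hψ α hα]
      symm
      apply Finset.sum_eq_zero
      intro γ _
      split_ifs <;> rfl
  rw [hsum]
  apply Ideal.sum_mem
  intro γ hγ
  apply Ideal.mul_mem_left
  apply mem_jac_of_mem
  exact hM γ ((hGm γ).mp hγ).ge

lemma milnor_finite (f : MvPolynomial (Fin 4) ℝ)
    (hns : ∀ z : Fin 4 → ℂ, (∀ l, eval z (cx (pderiv l f)) = 0) → z = 0) :
    Module.Finite ℂ (MilnorAlgebra f) := by
  classical
  obtain ⟨M, hM⟩ := exists_deg _ hns
  set S : Finset (Fin 4 →₀ ℕ) := (Finsupp.finite_of_degree_lt (σ := Fin 4) M).toFinset with hS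
  set mk : ConvSeries 4 →ₗ[ℂ] MilnorAlgebra f := (Ideal.Quotient.mkₐ ℂ (jacobianIdeal f)).toLinearMap
    with hmk
  have hspan : Submodule.span ℂ ((S.image fun α => mk (toConv (monomial α 1)) :
      Finset (MilnorAlgebra f)) : Set (MilnorAlgebra f)) = ⊤ := by
    rw [eq_top_iff]
    intro x _
    obtain ⟨φ, rfl⟩ := Ideal.Quotient.mk_surjective x
    set β : MvPolynomial (Fin 4) ℂ :=
      ∑ α ∈ S, monomial α (MvPowerSeries.coeff α (φ : MvPowerSeries (Fin 4) ℂ)) with hβ
    have hβc : ∀ (α : Fin 4 →₀ ℕ), α.degree < M →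
        coeff α β = MvPowerSeries.coeff α (φ : MvPowerSeries (Fin 4) ℂ) := by
      intro α hα
      rw [hβ]
      simp only [coeff_sum, coeff_monomial]
      rw [Finset.sum_ite_eq', if_pos]
      rw [hS, Set.Finite.mem_toFinset]
      exact hα
    have h1 : φ - toConv β ∈ jacobianIdeal f := by
      apply mem_jac_of_order f M hM
      intro α hα
      have h2 : ((φ - toConv β : ConvSeries 4) : MvPowerSeries (Fin 4) ℂ) =
          (φ : MvPowerSeries (Fin 4) ℂ) - ((β : MvPolynomial (Fin 4) ℂ) :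
            MvPowerSeries (Fin 4) ℂ) := rfl
      rw [h2, map_sub, MvPolynomial.coeff_coe, hβc α hα, sub_self]
    have h3 : Ideal.Quotient.mk (jacobianIdeal f) φ = mk (toConv β) := by
      rw [hmk]
      exact Ideal.Quotient.eq.mpr h1
    rw [h3, hβ, ← toConvHom_apply, map_sum, map_sum]
    apply Submodule.sum_mem
    intro α hα
    have h4 : (monomial α (MvPowerSeries.coeff α (φ : MvPowerSeries (Fin 4) ℂ)) :
        MvPolynomial (Fin 4) ℂ) =
        MvPowerSeries.coeff α (φ : MvPowerSeries (Fin 4) ℂ) • monomial α 1 := by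
      rw [smul_monomial, smul_eq_mul, mul_one]
    rw [h4, map_smul, map_smul]
    apply Submodule.smul_mem
    apply Submodule.subset_span
    rw [Finset.coe_image]
    exact ⟨α, hα, rfl⟩
  exact ⟨⟨_, hspan⟩⟩

/-- a complement of the Jacobian ideal in the polynomial ring embeds in the Milnor algebra -/
lemma complement_embeds (f : MvPolynomial (Fin 4) ℝ)
    (hns : ∀ z : Fin 4 → ℂ, (∀ l, eval z (cx (pderiv l f)) = 0) → z = 0)
    (V : Submodule ℂ (MvPolynomial (Fin 4) ℂ))
    (hV : Disjoint ((jI fun l => cx (pderiv l f)).restrictScalars ℂ) V) :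
    Module.Finite ℂ V ∧ Module.finrank ℂ V ≤ milnorNumber f := by
  have hfin := milnor_finite f hns
  let φ : V →ₗ[ℂ] MilnorAlgebra f :=
    ((Ideal.Quotient.mkₐ ℂ (jacobianIdeal f)).toLinearMap.comp toConvHom.toLinearMap).comp
      V.subtype
  have hinj : Function.Injective φ := by
    rw [← LinearMap.ker_eq_bot, LinearMap.ker_eq_bot']
    intro v hv
    have h1 : toConv (v : MvPolynomial (Fin 4) ℂ) ∈ jacobianIdeal f := by
      rw [← Ideal.Quotient.eq_zero_iff_mem]
      exact hv
    have h2 := mem_of_mem_jac f hns _ h1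
    have h3 : (v : MvPolynomial (Fin 4) ℂ) = 0 := by
      have := Submodule.disjoint_def.mp hV (v : MvPolynomial (Fin 4) ℂ) h2 v.2
      exact this
    exact Subtype.ext h3
  exact ⟨Module.Finite.of_injective φ hinj, LinearMap.finrank_le_finrank_of_injective hinj⟩

lemma two_le_milnor (f : MvPolynomial (Fin 4) ℝ) (hf : f.IsHomogeneous 4)
    (hns : ∀ z : Fin 4 → ℂ, (∀ l, eval z (cx (pderiv l f)) = 0) → z = 0) :
    2 ≤ milnorNumber f := by
  have hfin := milnor_finite f hns
  set mk : MvPolynomial (Fin 4) ℂ →ₗ[ℂ] MilnorAlgebra f :=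
    (Ideal.Quotient.mkₐ ℂ (jacobianIdeal f)).toLinearMap.comp toConvHom.toLinearMap with hmk
  have hli : LinearIndependent ℂ ![mk 1, mk (X 0)] := by
    rw [LinearIndependent.pair_iff]
    intro s t hst
    have h1 : mk (C s + C t * X 0) = 0 := by
      rw [← hst, ← map_smul, ← map_smul, ← map_add]
      congr 1
      rw [smul_eq_C_mul, smul_eq_C_mul, mul_one]
    have h2 : toConv (C s + C t * X 0 : MvPolynomial (Fin 4) ℂ) ∈ jacobianIdeal f := by
      rw [← Ideal.Quotient.eq_zero_iff_mem]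
      exact h1
    obtain ⟨b, hb⟩ := (mem_jI_iff _ _).mp (mem_of_mem_jac f hns _ h2)
    have hd0 : ∀ l, eval 0 (cx (pderiv l f)) = 0 := by
      intro l
      have h3 : (cx (pderiv l f)).IsHomogeneous 3 :=
        (hf.pderiv : (pderiv l f).IsHomogeneous 3).map _
      have := eval_smul_of_homog h3 0 0
      simpa using this
    have hd1 : ∀ l, eval 0 (pderiv 0 (cx (pderiv l f))) = 0 := by
      intro l
      have h3 : (pderiv 0 (cx (pderiv l f))).IsHomogeneous 2 :=
        ((hf.pderiv : (pderiv l f).IsHomogeneous 3).map _).pderiv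
      have := eval_smul_of_homog h3 0 0
      simpa using this
    constructor
    · have := congrArg (eval (0 : Fin 4 → ℂ)) hb
      simp only [map_add, map_mul, eval_C, eval_X, Pi.zero_apply, mul_zero, add_zero, map_sum, hd0,
        Finset.sum_const_zero] at this
      exact this
    · have := congrArg (fun a => eval (0 : Fin 4 → ℂ) (pderiv 0 a)) hb
      simp only [map_add, pderiv_C, pderiv_X_self, map_sum, pderiv_mul, map_mul,
        hd0, hd1, mul_zero, zero_mul, add_zero, Finset.sum_const_zero, eval_C, mul_one,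
        zero_add] at this
      exact this
  have h := hli.fintype_card_le_finrank
  unfold milnorNumber
  simpa using h

/-- The real quartic form `(3+δ)(x⁴+y⁴+z⁴+t⁴) - (x²+y²-z²-t²)²`. -/
def quartic (δ : ℝ) : MvPolynomial (Fin 4) ℝ :=
  C (3 + δ) * (X 0 ^ 4 + X 1 ^ 4 + X 2 ^ 4 + X 3 ^ 4) - (X 0 ^ 2 + X 1 ^ 2 - X 2 ^ 2 - X 3 ^ 2) ^ 2

/-- **Main theorem.** For all sufficiently small `δ > 0`, the real quartic form
`f = (3+δ)(x⁴+y⁴+z⁴+t⁴) - (x²+y²-z²-t²)²` has `0` as its only complex critical point, so its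
Milnor number `μ = dim_ℂ ℂ{x,y,z,t}/(∂f)` is finite, and every real analytic deformation of `f`
has, for all sufficiently small `t > 0`, fewer than `μ` real critical points in any given compact
subset `K` of the neighbourhood on which the deformation is defined (for example a small closed
ball around `0`). -/
theorem result : ∀ᶠ δ : ℝ in 𝓝[>] 0,
    (quartic δ).IsHomogeneous 4 ∧
    (∀ z : Fin 4 → ℂ, (∀ i, eval z (pderiv i (complexify (quartic δ))) = 0) → z = 0) ∧
    Module.Finite ℂ (MilnorAlgebra (quartic δ)) ∧ 0 < milnorNumber (quartic δ) ∧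
    ∀ (U : Set (Fin 4 → ℂ)) (F : ℝ → (Fin 4 → ℂ) → ℂ), IsRealDeformation (quartic δ) U F →
      ∀ K : Set (Fin 4 → ℝ), IsCompact K → (∀ x ∈ K, toC x ∈ U) →
        ∀ᶠ t in 𝓝[>] (0 : ℝ), (realCrit (F t) K).encard < (milnorNumber (quartic δ) : ℕ∞) := by
  obtain ⟨δ₀, hδ₀, hδ₀1, hbad⟩ := exists_not_realRooted
  filter_upwards [Ioo_mem_nhdsGT hδ₀] with δ hδ
  have hnr : ¬ RealRooted (quartic δ) := hbad δ hδ.1 hδ.2
  have hhom : (quartic δ).IsHomogeneous 4 := kf_homog δ
  have hns : ∀ z : Fin 4 → ℂ, (∀ l, eval z (cx (pderiv l (quartic δ))) = 0) → z = 0 := by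
    intro z hz
    apply gk_nonsing δ hδ.1 (hδ.2.trans_le hδ₀1) z
    intro l
    rw [← eval_pderiv_kf]
    exact hz l
  have h2 := two_le_milnor _ hhom hns
  refine ⟨hhom, fun z hz => hns z (fun l => by rw [← pderiv_complexify]; exact hz l),
    milnor_finite _ hns, by omega, ?_⟩
  intro U F hF K hK hKU
  by_contra hcon
  apply hnr
  have hfreq : ∃ᶠ t in 𝓝[>] (0 : ℝ), (milnorNumber (quartic δ) : ℕ∞) ≤
      {x ∈ K | fderiv ℝ (fun y : Fin 4 → ℝ => (F t (cv y)).re) x = 0}.encard := by
    rw [not_eventually] at hcon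
    exact hcon.mono fun t ht => not_lt.mp ht
  have hmany := many_of_frequently (quartic δ) hhom hns (milnorNumber (quartic δ)) U hF.isOpen
    hF.zero_mem F (𝓝[>] 0) hF.analytic hF.real hF.tendsto K hK hKU hfreq
  obtain ⟨V, hV⟩ := Submodule.exists_isCompl
    ((jI fun l => cx (pderiv l (quartic δ))).restrictScalars ℂ)
  obtain ⟨hVfin, hVle⟩ := complement_embeds _ hns V hV.disjoint
  exact realRooted_of_many (quartic δ) hhom hns V hV (milnorNumber (quartic δ)) h2 hVle hmany

end

end Pool.Agent.Results.MP_2aa512_ag.NoMaxRealMorsification
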